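import Pool.Agent.H628R2.Forb.Final

set_option autoImplicit false

/-!
# Single-machine makespan minimization with forbidden start and end times is FPT in the number of
forbidden times
-/

namespace Pool.Agent.Results.MP_5dd24d_lc.ForbiddenTimesFPT

open Pool.Agent.NPC

/-- `S` is a feasible schedule (a start time for each job) for jobs with processing times `p` and
forbidden instants `F`: no job starts or ends in `F`, and distinct jobs do not overlap. -/
def Feasible (p F : List ℕ) (S : Fin p.length → ℕ) : Prop :=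
  (∀ j, S j ∉ F ∧ S j + p[j] ∉ F) ∧
    ∀ i j, i ≠ j → S i + p[i] ≤ S j ∨ S j + p[j] ≤ S i

/-- The largest completion time. -/
def makespan (p : List ℕ) (S : Fin p.length → ℕ) : ℕ :=
  Finset.univ.sup (fun j => S j + p[j])

/-- `S` is a feasible schedule of minimum makespan. -/
def Optimal (p F : List ℕ) (S : Fin p.length → ℕ) : Prop :=
  Feasible p F S ∧ ∀ S' : Fin p.length → ℕ, Feasible p F S' → makespan p S ≤ makespan p S'

/-- There is a single Turing machine which, given the binary coding of an instance `(p, F)` with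
positive processing times, outputs the binary coding of a feasible schedule of minimum makespan,
within `f τ * (N + 1) ^ c` steps, where `τ` is the number of forbidden instants, `N` is the length
of the coding of the instance, and `f` is a computable function. -/
theorem result :
    ∃ (tm : Turing.FinTM2) (e₀ : tm.Γ tm.k₀ ≃ Bool) (e₁ : tm.Γ tm.k₁ ≃ Bool)
      (f : ℕ → ℕ) (c : ℕ), Computable f ∧
      ∀ p F : List ℕ, (∀ x ∈ p, 0 < x) → ∃ S : Fin p.length → ℕ, Optimal p F S ∧
        Nonempty (Turing.TM2OutputsInTime tm ((bits (p, F)).map e₀.invFun)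
          (some ((bits (List.ofFn S)).map e₁.invFun))
          (f F.toFinset.card * ((bits (p, F)).length + 1) ^ c)) := by
  obtain ⟨tm, e₀, e₁, f, c, hf, h⟩ := Pool.Agent.NPC.H628F.sched_fpt
  refine ⟨tm, e₀, e₁, f, c, hf, fun p F hp => ?_⟩
  obtain ⟨S, hS, hfeas, hopt⟩ :=
    Pool.Agent.H628R2.Forb.sched_opt p (Pool.Agent.H628R2.Forb.ded F) hp
  have hm : ∀ x, x ∈ Pool.Agent.H628R2.Forb.ded F ↔ x ∈ F :=
    Pool.Agent.H628R2.Forb.mem_ded F
  refine ⟨S, ⟨⟨?_, hfeas.2⟩, ?_⟩, ?_⟩
  · intro j
    rw [← hm, ← hm]
    exact hfeas.1 j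
  · intro S' hS'
    refine hopt S' ?_ hS'.2
    intro j
    rw [hm, hm]
    exact hS'.1 j
  · rw [hS]
    exact h p F

end Pool.Agent.Results.MP_5dd24d_lc.ForbiddenTimesFPT
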